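import Pool.Agent.Lib.helper18.Fat

set_option autoImplicit false

namespace Pool.Agent.Results.MP_48b99b_co.Exists

/-- A colouring, identified with the partition `P` of the vertices into its `k` nonempty classes,
is FAT: `e(v, V_i) = α deg v` if `v ∉ V_i` and `= (1 - (k-1) α) deg v` if `v ∈ V_i`, where `V_i`
is the class of `w`. -/
def IsFAT {V : Type} (G : SimpleGraph V) (P : Setoid V) : Prop :=
  ∃ α : ℝ, 0 ≤ α ∧ α ≤ 1 ∧ ∀ v w : V,
    (¬ P v w → (Set.ncard {u | G.Adj v u ∧ P u w} : ℝ) = α * Set.ncard {u | G.Adj v u}) ∧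
    (P v w → (Set.ncard {u | G.Adj v u ∧ P u w} : ℝ) =
      (1 - ((Nat.card (Quotient P) : ℝ) - 1) * α) * Set.ncard {u | G.Adj v u})

/-- An irreducible FAT colouring: no strictly finer partition is FAT. -/
def IsIrreducible {V : Type} (G : SimpleGraph V) (P : Setoid V) : Prop :=
  IsFAT G P ∧ ∀ Q : Setoid V, IsFAT G Q → (∀ x y, Q x y → P x y) → Q = P

/-- Some automorphism of `G` maps the partition `P` onto the partition `Q`. -/
def SameOrbit {V : Type} (G : SimpleGraph V) (P Q : Setoid V) : Prop :=
  ∃ φ : G ≃g G, ∀ x y, P x y ↔ Q (φ x) (φ y)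

open H18Fat in
theorem result : ∀ b : ℕ, 0 < b → ∃ (V : Type) (_ : Finite V) (G : SimpleGraph V),
    (∀ v, ∃ u, G.Adj v u) ∧ ∃ f : Fin b → Setoid V, (∀ i, IsIrreducible G (f i)) ∧
      (∀ i j, SameOrbit G (f i) (f j) → i = j) ∧
      ∀ P, IsIrreducible G P → ∃ i, SameOrbit G P (f i) := by
  classical
  have nb : ∀ m r x, ∃ u, (St m r).Adj x u := fun m r ⟨i, a⟩ => by
    cases a
    · exact ⟨(i, some 0), rfl, by simp⟩
    · exact ⟨(i, none), rfl, by simp⟩
  have fatC : ∀ m r, IsFAT (St m r) (Cp m r) := fun m r => by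
    refine ⟨0, le_rfl, zero_le_one, fun v w => ⟨fun h => ?_, fun h => ?_⟩⟩
    · have : {u | (St m r).Adj v u ∧ Cp m r u w} = ∅ :=
        Set.eq_empty_iff_forall_notMem.2 fun u hu => h (hu.1.1.trans hu.2)
      rw [this]; simp
    · have : {u | (St m r).Adj v u ∧ Cp m r u w} = {u | (St m r).Adj v u} :=
        Set.ext fun u => ⟨fun hu => hu.1, fun hu => ⟨hu, hu.1.symm.trans h⟩⟩
      rw [this]; simp
  have fatP : ∀ m r s, IsFAT (St m r) (Ps m r s) := fun m r s => by
    refine ⟨1, zero_le_one, le_rfl, fun v w => ⟨fun h => ?_, fun h => ?_⟩⟩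
    · have : {u | (St m r).Adj v u ∧ Ps m r s u w} = {u | (St m r).Adj v u} := by
        refine Set.ext fun u => ⟨fun hu => hu.1, fun hu => ⟨hu, ?_⟩⟩
        obtain ⟨h1, h2⟩ := hu
        rw [ps] at h ⊢
        rw [← h1]
        revert h h2
        cases v.2.isSome <;> cases u.2.isSome <;> cases s v.1 <;> simp
      rw [this]; simp
    · have : {u | (St m r).Adj v u ∧ Ps m r s u w} = ∅ := by
        refine Set.eq_empty_iff_forall_notMem.2 fun u hu => ?_
        obtain ⟨⟨h1, h2⟩, h3⟩ := hu
        rw [ps] at h h3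
        rw [← h, ← h1] at h3
        revert h3 h2
        cases v.2.isSome <;> cases u.2.isSome <;> cases s v.1 <;> simp
      have hk : Nat.card (Quotient (Ps m r s)) = 2 := by
        unfold Ps
        rw [Nat.card_congr (Setoid.quotientKerEquivOfSurjective _ fun c => ?_)]
        · simp
        · by_cases hc : s v.1 = c
          · exact ⟨(v.1, none), by simp [hc]⟩
          · exact ⟨(v.1, some 0), by revert hc; cases s v.1 <;> cases c <;> simp⟩
      rw [this, hk]; norm_num
  have cls : ∀ m r P, IsFAT (St m r) P → (∀ x y, Cp m r x y → P x y) ∨ ∃ s, P = Ps m r s := by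
    rintro m r P ⟨α, -, -, h⟩
    by_cases hA : ∀ i t, P (i, some t) (i, none)
    · left
      have : ∀ x : Fin m × Option (Fin (r + 1)), P x (x.1, none) := fun ⟨i, a⟩ => by
        cases a
        · exact P.refl' _
        · exact hA _ _
      exact fun x y hxy => P.trans' (this x) (P.symm' ((cp _ _ _ _).1 hxy ▸ this y))
    right
    push Not at hA
    obtain ⟨i0, t0, h0⟩ := hA
    have e : ∀ i t w, {u | (St m r).Adj (i, some t) u ∧ P u w} =
        {u | u = (i, none) ∧ P u w} := fun i t w => by
      ext u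
      have := Set.ext_iff.1 (leaf m r i t) u
      simp only [Set.mem_setOf_eq, Set.mem_singleton_iff] at this ⊢
      rw [this]
    have ha : α = 1 := by
      have := (h (i0, some t0) (i0, none)).1 h0
      rw [e, leaf, show {u | u = (i0, none) ∧ P u (i0, none)} = {(i0, none)} from
        Set.ext fun u => ⟨fun hu => hu.1, fun hu => ⟨hu, hu ▸ P.refl' _⟩⟩] at this
      simpa using this.symm
    have two : ∀ i t w, P (i, some t) w ∨ P (i, none) w := fun i t w => by
      by_contra hc
      push Not at hc
      have := (h (i, some t) w).1 hc.1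
      rw [e, leaf, ha, show {u | u = (i, none) ∧ P u w} = ∅ from
        Set.eq_empty_iff_forall_notMem.2 fun u hu => hc.2 (hu.1 ▸ hu.2)] at this
      simp at this
    have nl : ∀ i t, ¬ P (i, some t) (i, none) := fun i t hc => by
      have all : ∀ w, P (i, none) w := fun w => (two i t w).elim (P.trans' (P.symm' hc)) id
      exact h0 (P.trans' (P.symm' (all _)) (all _))
    refine ⟨fun i => decide (P (i, none) (i0, none)), Setoid.ext fun x y => ?_⟩
    have col : ∀ x : Fin m × Option (Fin (r + 1)),
        xor x.2.isSome (decide (P (x.1, none) (i0, none))) = decide (P x (i0, none)) := by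
      rintro ⟨i, _ | t⟩
      · simp
      · have h1 := two i t (i0, none)
        have h2 : ¬ (P (i, some t) (i0, none) ∧ P (i, none) (i0, none)) :=
          fun hh => nl i t (P.trans' hh.1 (P.symm' hh.2))
        by_cases h3 : P (i, none) (i0, none) <;> simp [h3] <;> tauto
    rw [ps, col, col, decide_eq_decide]
    refine ⟨fun hxy => ⟨P.trans' (P.symm' hxy), P.trans' hxy⟩, fun hh => ?_⟩
    by_cases hx : P x (i0, none)
    · exact P.trans' hx (P.symm' (hh.1 hx))
    · have hy := mt hh.2 hx
      exact P.trans' (P.symm' ((two i0 t0 x).resolve_right fun h => hx (P.symm' h)))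
        ((two i0 t0 y).resolve_right fun h => hy (P.symm' h))
  have npa : ∀ m r s x y, (St m r).Adj x y → ¬ Ps m r s x y := fun m r s x y ⟨h1, h2⟩ h => by
    rw [ps, ← h1] at h
    revert h h2
    cases x.2.isSome <;> cases y.2.isSome <;> cases s x.1 <;> simp
  have irrP : ∀ m r s, IsIrreducible (St m r) (Ps m r s) := fun m r s => by
    refine ⟨fatP m r s, fun Q hQ hle => Setoid.ext fun x y => ⟨hle x y, fun hxy => ?_⟩⟩
    obtain ⟨u, hu⟩ := nb m r x
    rcases cls m r Q hQ with h | ⟨s', rfl⟩
    · exact absurd (hle _ _ (h _ _ hu.1)) (npa _ _ _ _ _ hu)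
    · by_contra hc
      have h1 := npa _ _ s' _ _ hu
      have h2 : Ps m r s' u y := by
        rw [ps] at hc h1 ⊢
        revert hc h1
        generalize xor x.2.isSome (s' x.1) = a
        generalize xor y.2.isSome (s' y.1) = b
        generalize xor u.2.isSome (s' u.1) = c
        cases a <;> cases b <;> cases c <;> simp
      exact npa _ _ s _ _ hu ((Ps m r s).trans' hxy ((Ps m r s).symm' (hle _ _ h2)))
  have irrC : ∀ m r, IsIrreducible (St (m + 2) r) (Cp (m + 2) r) := fun m r => by
    refine ⟨fatC _ r, fun Q hQ hle => ?_⟩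
    rcases cls _ r Q hQ with h | ⟨s, rfl⟩
    · exact Setoid.ext fun x y => ⟨hle x y, h x y⟩
    · exfalso
      by_cases hs : s 0 = s 1
      · simpa [cp] using hle (0, none) (1, none) (by simp [ps, hs])
      · have := hle (0, none) (1, some 0) (by
          rw [ps]; revert hs; cases s 0 <;> cases s 1 <;> simp)
        simp [cp] at this
  have irr : ∀ m r P, IsIrreducible (St m r) P → P = Cp m r ∨ ∃ s, P = Ps m r s :=
    fun m r P hP => (cls m r P hP.1).imp (fun h => (hP.2 _ (fatC m r) h).symm) id
  have rfl' : ∀ m r P, SameOrbit (St m r) P P := fun m r P =>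
    ⟨RelIso.refl _, fun _ _ => Iff.rfl⟩
  have nCP : ∀ m r s, ¬ SameOrbit (St (m + 1) r) (Cp _ r) (Ps _ r s) := fun m r s ⟨φ, h⟩ => by
    obtain ⟨u, hu⟩ := nb (m + 1) r (0, none)
    exact npa _ _ s _ _ (φ.map_rel_iff.2 hu) ((h _ _).1 hu.1)
  have nPC : ∀ m r s, ¬ SameOrbit (St (m + 1) r) (Ps _ r s) (Cp _ r) := fun m r s ⟨φ, h⟩ => by
    obtain ⟨u, hu⟩ := nb (m + 1) r (0, none)
    exact npa _ _ s _ _ hu ((h _ _).2 (φ.map_rel_iff.2 hu).1)
  have neg : ∀ m r s, Ps m r (fun i => !s i) = Ps m r s := fun m r s => Setoid.ext fun x y => by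
    rw [ps, ps]
    cases x.2.isSome <;> cases y.2.isSome <;> cases s x.1 <;> cases s y.1 <;> simp
  intro b hb
  obtain rfl | rfl | ⟨c, rfl⟩ : b = 1 ∨ b = 2 ∨ ∃ c, b = c + 3 := by
    rcases b with _ | _ | _ | c
    · omega
    · simp
    · simp
    · exact Or.inr (Or.inr ⟨c, rfl⟩)
  · refine ⟨_, inferInstance, St 1 0, nb 1 0, fun _ => Ps 1 0 fun _ => false, fun _ => irrP _ _ _,
      fun i j _ => Subsingleton.elim i j, fun P hP => ⟨0, ?_⟩⟩
    rcases irr _ _ P hP with rfl | ⟨s, rfl⟩
    · rw [← hP.2 _ (fatP 1 0 fun _ => false) fun x y _ => Subsingleton.elim x.1 y.1]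
      exact rfl' _ _ _
    · have : Ps 1 0 s = Ps 1 0 fun _ => false := by
        cases hs : s 0
        · congr 1; funext i; rw [Subsingleton.elim i 0, hs]
        · rw [← neg]; congr 1; funext i; rw [Subsingleton.elim i 0, hs]; rfl
      rw [this]; exact rfl' _ _ _
  · refine ⟨_, inferInstance, St 2 0, nb 2 0, ![Cp 2 0, Ps 2 0 fun _ => false], ?_, ?_,
      fun P hP => ?_⟩
    · intro i; fin_cases i
      exacts [irrC 0 0, irrP 2 0 fun _ => false]
    · intro i j h; fin_cases i <;> fin_cases j
      exacts [rfl, absurd h (nCP 1 0 fun _ => false), absurd h (nPC 1 0 fun _ => false), rfl]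
    · rcases irr _ _ P hP with rfl | ⟨s, rfl⟩
      · exact ⟨0, rfl' _ _ _⟩
      · exact ⟨1, ⟨Function.Involutive.toPerm (g s) (g1 s), fun {x y} => g2 s x y⟩,
          fun x y => g3 s x y⟩
  · let s : ℕ → Fin (2 * c + 1 + 2) → Bool := fun j i => decide (i.val < j)
    have hs : ∀ j ≤ 2 * c + 3, (Finset.univ.filter fun i => s j i = true).card = j := fun j hj => by
      simp only [s, decide_eq_true_eq]
      rw [Fin.card_filter_val_lt]; omega
    have hn : ∀ t : Fin (2 * c + 1 + 2) → Bool, (Finset.univ.filter fun i => t i = true).card +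
        (Finset.univ.filter fun i => t i = false).card = 2 * c + 3 := fun t => by
      have := Finset.card_filter_add_card_filter_not (s := Finset.univ) (fun i => t i = true)
      simpa using this
    refine ⟨_, inferInstance, St (2 * c + 1 + 2) 1, nb _ 1,
      fun j => if j.val = c + 2 then Cp _ 1 else Ps _ 1 (s j.val), fun j => ?_, fun i j h => ?_,
      fun P hP => ?_⟩
    · dsimp only; split_ifs
      exacts [irrC _ _, irrP _ _ _]
    · dsimp only at h
      split_ifs at h with h1 h2 h2
      · exact Fin.ext (h1.trans h2.symm)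
      · exact absurd h (nCP _ _ _)
      · exact absurd h (nPC _ _ _)
      obtain ⟨φ, h⟩ := h
      have cen : ∀ k, (φ (k, none)).2 = none := fun k => by
        cases hk : (φ (k, none)).2 with
        | none => rfl
        | some t =>
          have a0 := φ.map_rel_iff.2 (show (St _ 1).Adj (k, none) (k, some 0) from ⟨rfl, by simp⟩)
          have a1 := φ.map_rel_iff.2 (show (St _ 1).Adj (k, none) (k, some 1) from ⟨rfl, by simp⟩)
          rw [show φ (k, none) = ((φ (k, none)).1, some t) from Prod.ext rfl hk] at a0 a1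
          have b0 := (Set.ext_iff.1 (leaf _ _ _ _) _).1 a0
          have b1 := (Set.ext_iff.1 (leaf _ _ _ _) _).1 a1
          simpa using φ.injective (b0.trans b1.symm)
      have inj : Function.Injective fun k => (φ (k, none)).1 := fun k l hkl =>
        congrArg Prod.fst (φ.injective (Prod.ext hkl ((cen k).trans (cen l).symm)))
      have hb := Finite.injective_iff_bijective.1 inj
      have key : ∀ k l, s i k = s i l ↔ s j (φ (k, none)).1 = s j (φ (l, none)).1 := fun k l => by
        simpa [ps, cen] using h (k, none) (l, none)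
      have cd : ∀ a a', (∀ k, s i k = a ↔ s j (φ (k, none)).1 = a') →
          (Finset.univ.filter fun k => s i k = a).card =
            (Finset.univ.filter fun k => s j k = a').card := fun a a' hh =>
        Finset.card_bijective _ hb fun k => by simpa using hh k
      have := cd (s i 0) (s j (φ (0, none)).1) fun k => key k 0
      have i1 := hs i (by omega); have i2 := hs j (by omega)
      have i3 := hn (s i); have i4 := hn (s j)
      have := i.isLt; have := j.isLt
      apply Fin.ext
      cases h3 : s i 0 <;> cases h4 : s j (φ (0, none)).1 <;> simp only [h3, h4] at * <;> omega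
    · have key : ∀ t : Fin (2 * c + 1 + 2) → Bool,
          (Finset.univ.filter fun i => t i = true).card ≤ c + 1 → ∃ j : Fin (c + 3),
          SameOrbit (St _ 1) (Ps _ 1 t) (if j.val = c + 2 then Cp _ 1 else Ps _ 1 (s j.val)) := by
        intro t ht
        refine ⟨⟨_, Nat.lt_of_le_of_lt ht (by omega)⟩, ?_⟩
        rw [if_neg (by simp only; omega)]
        simp only
        set j := (Finset.univ.filter fun i => t i = true).card with hj
        have e : ∀ a, {i // t i = a} ≃ {i // s j i = a} := fun a => Fintype.equivOfCardEq (by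
          rw [Fintype.card_subtype, Fintype.card_subtype]
          have := hs j (by omega); have := hn t; have := hn (s j)
          cases a <;> omega)
        refine ⟨⟨(Equiv.ofFiberEquiv e).prodCongr (Equiv.refl _), ?_⟩, fun x y => ?_⟩
        · intro x y
          exact and_congr_left' (Equiv.ofFiberEquiv e).injective.eq_iff
        · change _ ↔ Ps _ 1 (s j) (Equiv.ofFiberEquiv e x.1, x.2) (Equiv.ofFiberEquiv e y.1, y.2)
          rw [ps, ps, Equiv.ofFiberEquiv_map e, Equiv.ofFiberEquiv_map e]
      rcases irr _ _ P hP with rfl | ⟨t, rfl⟩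
      · exact ⟨⟨c + 2, by omega⟩, by simpa using rfl' _ _ _⟩
      · by_cases ht : (Finset.univ.filter fun i => t i = true).card ≤ c + 1
        · exact key t ht
        · rw [← neg]
          apply key
          have := hn t
          simp only [Bool.not_eq_true']; omega

end Pool.Agent.Results.MP_48b99b_co.Exists
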